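import Pool.Agent.Helper13.PS.St

/-! # Project PS (MP_77ff3d_nt), module QF (dyadic form) -/

set_option autoImplicit false

noncomputable section

namespace Pool.Agent.Helper41.PS

open Finset Pool.Agent.Helper76.ND Pool.Agent.Helper13.PS

open Classical in
theorem hQF (hPL : StPL) (hQD : StQD) : StQF := by
  intro ε hε
  obtain ⟨σ, m, T0, hσ, hσ1, hL⟩ := hQD ε hε
  obtain ⟨C, c, hC, hc, hc1, hX⟩ := hPL σ hσ (by linarith) m
  have h2 : (0 : ℝ) < 2 ^ T0 := by positivity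
  refine ⟨C + 2 ^ T0, c, by positivity, hc, hc1, fun t => ?_⟩
  have hp : (0 : ℝ) < 2 ^ ((1 - c) * (t : ℝ)) := Real.rpow_pos_of_pos (by norm_num) _
  rw [add_mul]
  rcases le_or_gt T0 t with ht | ht
  · have h1 : (((Icc 1 (2 ^ t)).filter (fun N => ¬ Law ε N)).card : ℝ) ≤
        (((Icc 1 (2 ^ t)).filter (fun N => X σ m t N)).card : ℝ) := by
      rw [Nat.cast_le]
      refine card_le_card fun N hN => ?_
      rw [mem_filter] at hN ⊢
      refine ⟨hN.1, ?_⟩
      by_contra hn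
      have hI := mem_Icc.1 hN.1
      exact hN.2 (hL t N ht hI.1 hI.2 hn)
    have h3 := hX t
    have h4 : (0 : ℝ) ≤ 2 ^ T0 * 2 ^ ((1 - c) * (t : ℝ)) := by positivity
    linarith
  · have h1 : (((Icc 1 (2 ^ t)).filter (fun N => ¬ Law ε N)).card : ℝ) ≤ 2 ^ T0 := by
      have h5 : ((Icc 1 (2 ^ t)).filter (fun N => ¬ Law ε N)).card ≤ 2 ^ t := by
        refine (card_filter_le _ _).trans ?_
        rw [Nat.card_Icc, Nat.add_sub_cancel]
      have h6 : 2 ^ t ≤ 2 ^ T0 := Nat.pow_le_pow_right (by norm_num) ht.le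
      exact_mod_cast h5.trans h6
    have h7 : (1 : ℝ) ≤ 2 ^ ((1 - c) * (t : ℝ)) := by
      refine Real.one_le_rpow (by norm_num) ?_
      have : (0 : ℝ) ≤ t := Nat.cast_nonneg t
      exact mul_nonneg (by linarith) this
    have h8 : (2 : ℝ) ^ T0 ≤ 2 ^ T0 * 2 ^ ((1 - c) * (t : ℝ)) := le_mul_of_one_le_right h2.le h7
    have h9 : (0 : ℝ) ≤ C * 2 ^ ((1 - c) * (t : ℝ)) := by positivity
    linarith

end Pool.Agent.Helper41.PS
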